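import Mathlib
import Pool.Agent.H590.PL.Stm

/-! FIN: assembly for subspaces of l_p^N (helper590's project PL, MP_85210c_gt). -/

set_option autoImplicit false

open MeasureTheory Filter Topology Set
open scoped BigOperators ENNReal

namespace Pool.Agent.H922.PL

open H590PL

theorem FIN (h1 : S_CORE) (h2 : S_VK) (h3 : S_VP) (h4 : S_BP) (h5 : S_OR) (h6 : S_IF)
    (h7 : S_IA) : S_FIN := by
  intro κ _ p hp1 hp2 v hv
  have hp0 : 0 < p := by linarith
  have hq0 : 0 < p / (p - 1) := div_pos hp0 (by linarith)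
  have hcore := h1 κ p hp1 hp2 v hv
  have hvk := h2 κ p hp1 hp2 v hv
  have hvp := h3 κ p (p / (p - 1)) hp1 hp2 rfl v hv
  have hbp := h4 p (p / (p - 1)) hp1 hp2 rfl
  obtain ⟨hF, hA, -⟩ := h5 p hp1 hp2.le
  obtain ⟨-, hFpos, -⟩ := h6 κ p hp1 hp2.le v hv
  obtain ⟨-, hApos, -⟩ := h7 κ p hp1 hp2.le v hv
  have hG1 : 0 < Real.Gamma (2 / p + 1) := Real.Gamma_pos_of_pos (by positivity)
  have hG2 : 0 < Real.Gamma (2 / (p / (p - 1)) + 1) :=
    Real.Gamma_pos_of_pos (by positivity)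
  refine hbp.trans ?_
  rw [hvk]
  refine le_trans ?_ (mul_le_mul_right hvp _)
  rw [← ENNReal.ofReal_mul (div_nonneg hFpos.le hG1.le)]
  apply ENNReal.ofReal_le_ofReal
  rw [hF, hA] at hcore
  rw [div_mul_div_comm]
  have hden : Real.Gamma (2 / p + 1) * ((p / (p - 1)) ^ 2 * Real.Gamma (2 / (p / (p - 1)) + 1)) =
      (p / (p - 1)) ^ 2 * Real.Gamma (2 / p + 1) * Real.Gamma (2 / (p / (p - 1)) + 1) := by ring
  rw [hden]
  exact div_le_div_of_nonneg_right hcore (by positivity)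

end Pool.Agent.H922.PL
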